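import Pool.Agent.H70.NC.Targets

/-!
# MOM: the moment bound for decision trees and planted rows
-/

set_option autoImplicit false

namespace Pool.Agent.H70.NC.MOM

open Finset Pool.Agent.H70.NC Pool.Agent.H70.OQ

section

variable {M R : Type} [Fintype M] [DecidableEq M] [Fintype R] [DecidableEq R]

/-- weight of the answer no -/
noncomputable def sN (ν : Bool × R → ℝ) : ℝ := ∑ r, ν (false, r)

/-- weight of the answer yes -/
noncomputable def sS (ν : Bool × R → ℝ) : ℝ := ∑ r, ν (true, r)

/-- the potential -/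
noncomputable def phi (y : ℝ) (ν : Bool × R → ℝ) : ℝ := max (y * sN ν + sS ν) (sN ν + y * sS ν)

/-- the state condition -/
def St (L : ℕ) (ν : Bool × R → ℝ) : Prop :=
  (∀ r, L * ν (true, r) ≤ sN ν) ∨ ∃ r, ∀ c, c ≠ (true, r) → ν c = 0

/-- the moment -/
noncomputable def V (y : ℝ) (g : (M × R → Bool) → M → Bool) (μ : M → Bool × R → ℝ) : ℝ :=
  ∑ c : M → Bool × R, (∏ m, μ m (c m)) *
    y ^ (univ.filter fun m => g (glu (fun m => (c m).2) fun m => (c m).1) m = (c m).1).card

/-- the weight restricted to the row `r` -/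
def yes (r : R) (ν : Bool × R → ℝ) : Bool × R → ℝ := fun c => if c = (true, r) then ν c else 0

/-- the weight without the row `r` -/
def no (r : R) (ν : Bool × R → ℝ) : Bool × R → ℝ := fun c => if c = (true, r) then 0 else ν c

omit [DecidableEq R] in
theorem sum_pair (f : Bool × R → ℝ) : ∑ c, f c = sN f + sS f := by
  rw [Fintype.sum_prod_type, Fintype.sum_bool, add_comm]
  rfl

omit [DecidableEq R] in
theorem sN_nonneg {ν : Bool × R → ℝ} (h : ∀ c, 0 ≤ ν c) : 0 ≤ sN ν := sum_nonneg fun _ _ => h _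

omit [DecidableEq R] in
theorem sS_nonneg {ν : Bool × R → ℝ} (h : ∀ c, 0 ≤ ν c) : 0 ≤ sS ν := sum_nonneg fun _ _ => h _

omit [DecidableEq R] in
theorem phi_nonneg {y : ℝ} (hy : 1 ≤ y) {ν : Bool × R → ℝ} (h : ∀ c, 0 ≤ ν c) : 0 ≤ phi y ν := by
  have h1 := sN_nonneg h
  have h2 := sS_nonneg h
  have : 0 ≤ y * sN ν + sS ν := by positivity
  exact this.trans (le_max_left _ _)

omit [DecidableEq R] in
theorem phi_mono {y : ℝ} (hy : 1 ≤ y) {ν ν' : Bool × R → ℝ} (h : ∀ c, ν c ≤ ν' c) :
    phi y ν ≤ phi y ν' := by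
  have h1 : sN ν ≤ sN ν' := sum_le_sum fun _ _ => h _
  have h2 : sS ν ≤ sS ν' := sum_le_sum fun _ _ => h _
  have hy0 : 0 ≤ y := by linarith
  exact max_le_max (add_le_add (mul_le_mul_of_nonneg_left h1 hy0) h2)
    (add_le_add h1 (mul_le_mul_of_nonneg_left h2 hy0))

omit [Fintype R] in
theorem yes_nonneg (r : R) {ν : Bool × R → ℝ} (h : ∀ c, 0 ≤ ν c) : ∀ c, 0 ≤ yes r ν c := by
  intro c
  unfold yes
  split_ifs
  · exact h c
  · exact le_rfl

omit [Fintype R] in
theorem no_nonneg (r : R) {ν : Bool × R → ℝ} (h : ∀ c, 0 ≤ ν c) : ∀ c, 0 ≤ no r ν c := by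
  intro c
  unfold no
  split_ifs
  · exact le_rfl
  · exact h c

theorem sN_no (r : R) (ν : Bool × R → ℝ) : sN (no r ν) = sN ν := by
  unfold sN no
  refine sum_congr rfl fun x _ => ?_
  rw [if_neg (by simp)]

theorem sN_yes (r : R) (ν : Bool × R → ℝ) : sN (yes r ν) = 0 := by
  unfold sN yes
  refine sum_eq_zero fun x _ => ?_
  rw [if_neg (by simp)]

theorem sS_yes (r : R) (ν : Bool × R → ℝ) : sS (yes r ν) = ν (true, r) := by
  unfold sS yes
  rw [sum_eq_single r]
  · rw [if_pos rfl]
  · intro b _ hb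
    rw [if_neg (by simpa using hb)]
  · intro h
    exact absurd (mem_univ r) h

theorem phi_yes {y : ℝ} (hy : 1 ≤ y) (r : R) {ν : Bool × R → ℝ} (h : ∀ c, 0 ≤ ν c) :
    phi y (yes r ν) = y * ν (true, r) := by
  unfold phi
  rw [sN_yes, sS_yes, mul_zero, zero_add, zero_add]
  refine max_eq_right ?_
  have := h (true, r)
  nlinarith

theorem St_yes (L : ℕ) (r : R) (ν : Bool × R → ℝ) : St L (yes r ν) :=
  Or.inr ⟨r, fun _ hc => if_neg hc⟩

theorem St_no {L : ℕ} (r : R) {ν : Bool × R → ℝ} (h0 : ∀ c, 0 ≤ ν c) (h : St L ν) :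
    St L (no r ν) := by
  rcases h with h | ⟨r', h⟩
  · refine Or.inl fun x => ?_
    rw [sN_no]
    by_cases hx : x = r
    · subst hx
      have : no x ν (true, x) = 0 := if_pos rfl
      rw [this, mul_zero]
      exact sN_nonneg h0
    · have : no r ν (true, x) = ν (true, x) := if_neg (by simpa using hx)
      rw [this]
      exact h x
  · refine Or.inr ⟨r', fun c hc => ?_⟩
    unfold no
    split_ifs
    · rfl
    · exact h c hc

/-- The local inequality. -/
theorem local_ineq {y : ℝ} (hy : 1 ≤ y) {L : ℕ} (hL : 1 ≤ L) (r : R) {ν : Bool × R → ℝ}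
    (h0 : ∀ c, 0 ≤ ν c) (h : St L ν) :
    phi y (yes r ν) + phi y (no r ν) ≤ (1 + 1 / (L : ℝ)) * phi y ν := by
  have hL0 : (0 : ℝ) < L := by exact_mod_cast hL
  have hphi := phi_nonneg hy h0
  have hmono : phi y (no r ν) ≤ phi y ν := by
    refine phi_mono hy fun c => ?_
    unfold no
    split_ifs
    · exact h0 c
    · exact le_rfl
  rcases h with h | ⟨r', h⟩
  · have h1 : phi y (yes r ν) ≤ 1 / (L : ℝ) * phi y ν := by
      rw [phi_yes hy r h0]
      have h2 : y * ν (true, r) ≤ 1 / (L : ℝ) * (y * sN ν) := by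
        have := h r
        rw [one_div, ← div_eq_inv_mul, le_div_iff₀ hL0]
        nlinarith
      have h3 : y * sN ν ≤ phi y ν := by
        have := sS_nonneg h0
        exact (le_add_of_nonneg_right this).trans (le_max_left _ _)
      exact h2.trans (mul_le_mul_of_nonneg_left h3 (by positivity))
    linarith
  · have key : phi y (yes r ν) + phi y (no r ν) ≤ phi y ν := by
      by_cases hr : r = r'
      · subst hr
        have e : no r ν = fun _ => 0 := by
          funext c
          unfold no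
          split_ifs with hc
          · rfl
          · exact h c hc
        have e2 : yes r ν = ν := by
          funext c
          unfold yes
          split_ifs with hc
          · rfl
          · exact (h c hc).symm
        rw [e, e2]
        simp [phi, sN, sS]
      · have : phi y (yes r ν) = 0 := by
          rw [phi_yes hy r h0, h (true, r) (by simpa using hr), mul_zero]
        rw [this, zero_add]
        exact hmono
    have : 0 ≤ 1 / (L : ℝ) * phi y ν := by positivity
    linarith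

omit [Fintype R] [DecidableEq R] in
theorem prod_upd {α : Type} (F : M → α → ℝ) (μ : M → α) (m₀ : M) (ν : α) :
    ∏ m, F m (Function.update μ m₀ ν m) = F m₀ ν * ∏ m ∈ univ.erase m₀, F m (μ m) := by
  rw [← mul_prod_erase univ _ (mem_univ m₀), Function.update_self]
  congr 1
  refine prod_congr rfl fun m hm => ?_
  rw [Function.update_of_ne (ne_of_mem_erase hm)]

theorem leaf {y : ℝ} (hy : 1 ≤ y) (b : M → Bool) (μ : M → Bool × R → ℝ)
    (h0 : ∀ m c, 0 ≤ μ m c) : V y (fun _ => b) μ ≤ ∏ m, phi y (μ m) := by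
  have e : V y (fun _ => b) μ = ∏ m, ∑ c : Bool × R, μ m c * (if b m = c.1 then y else 1) := by
    rw [Fintype.prod_sum]
    unfold V
    refine sum_congr rfl fun c _ => ?_
    rw [prod_mul_distrib]
    congr 1
    rw [prod_ite, prod_const, prod_const_one, mul_one]
  rw [e]
  have hy0 : 0 ≤ y := by linarith
  refine prod_le_prod (fun m _ => sum_nonneg fun c _ => mul_nonneg (h0 m c) ?_) fun m _ => ?_
  · split_ifs
    · exact hy0
    · norm_num
  · rw [sum_pair]
    unfold phi
    cases hb : b m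
    · refine le_trans (le_of_eq ?_) (le_max_left _ _)
      simp only [sN, sS, mul_sum]
      congr 1
      · refine sum_congr rfl fun r _ => ?_
        simp [mul_comm]
      · refine sum_congr rfl fun r _ => ?_
        simp
    · refine le_trans (le_of_eq ?_) (le_max_right _ _)
      simp only [sN, sS, mul_sum]
      congr 1
      · refine sum_congr rfl fun r _ => ?_
        simp
      · refine sum_congr rfl fun r _ => ?_
        simp [mul_comm]

omit [Fintype M] [DecidableEq M] [Fintype R] in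
theorem glu_row (c : M → Bool × R) (m₀ : M) (r₀ : R) :
    glu (fun m => (c m).2) (fun m => (c m).1) (m₀, r₀) = !decide (c m₀ = (true, r₀)) := by
  unfold glu
  rcases hc : c m₀ with ⟨b, r⟩
  cases b
  · simp [hc]
  · simp only [hc, Bool.true_and, Prod.mk.injEq, true_and]
    by_cases h : r = r₀
    · subst h
      simp
    · rw [decide_eq_false h, decide_eq_false fun e => h e.symm]

theorem node {y : ℝ} (m₀ : M) (r₀ : R) (g₀ g₁ : (M × R → Bool) → M → Bool)
    (μ : M → Bool × R → ℝ) :
    V y (fun z => cond (z (m₀, r₀)) (g₁ z) (g₀ z)) μ =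
      V y g₀ (Function.update μ m₀ (yes r₀ (μ m₀))) +
      V y g₁ (Function.update μ m₀ (no r₀ (μ m₀))) := by
  unfold V
  rw [← sum_add_distrib]
  refine sum_congr rfl fun c _ => ?_
  have e0 : ∏ m, μ m (c m) = μ m₀ (c m₀) * ∏ m ∈ univ.erase m₀, μ m (c m) :=
    (mul_prod_erase univ _ (mem_univ m₀)).symm
  have e1 := prod_upd (fun m (ν : Bool × R → ℝ) => ν (c m)) μ m₀ (yes r₀ (μ m₀))
  have e2 := prod_upd (fun m (ν : Bool × R → ℝ) => ν (c m)) μ m₀ (no r₀ (μ m₀))
  rw [e1, e2, e0]
  by_cases hc : c m₀ = (true, r₀)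
  · have hg : glu (fun m => (c m).2) (fun m => (c m).1) (m₀, r₀) = false := by
      rw [glu_row, decide_eq_true hc]
      rfl
    have y1 : yes r₀ (μ m₀) (c m₀) = μ m₀ (c m₀) := if_pos hc
    have y2 : no r₀ (μ m₀) (c m₀) = 0 := if_pos hc
    simp only [hg, cond_false]
    rw [y1, y2, zero_mul, zero_mul, add_zero]
  · have hg : glu (fun m => (c m).2) (fun m => (c m).1) (m₀, r₀) = true := by
      rw [glu_row, decide_eq_false hc]
      rfl
    have y1 : yes r₀ (μ m₀) (c m₀) = 0 := if_neg hc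
    have y2 : no r₀ (μ m₀) (c m₀) = μ m₀ (c m₀) := if_neg hc
    simp only [hg, cond_true]
    rw [y1, y2, zero_mul, zero_mul, zero_add]

theorem claim {y : ℝ} (hy : 1 ≤ y) {L : ℕ} (hL : 1 ≤ L) {D : ℕ}
    {g : (M × R → Bool) → M → Bool} (hg : QC D g) : ∀ μ : M → Bool × R → ℝ,
    (∀ m c, 0 ≤ μ m c) → (∀ m, St L (μ m)) →
    V y g μ ≤ (1 + 1 / (L : ℝ)) ^ D * ∏ m, phi y (μ m) := by
  have hL0 : (0 : ℝ) < L := by exact_mod_cast hL
  have h1L : (1 : ℝ) ≤ 1 + 1 / (L : ℝ) := by
    have : (0 : ℝ) ≤ 1 / (L : ℝ) := by positivity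
    linarith
  induction hg with
  | leaf D b =>
    intro μ h0 _
    have hp : 0 ≤ ∏ m, phi y (μ m) := prod_nonneg fun m _ => phi_nonneg hy (h0 m)
    exact (leaf hy b μ h0).trans (le_mul_of_one_le_left hp (one_le_pow₀ h1L))
  | node D r g₀ g₁ _ _ ih₀ ih₁ =>
    intro μ h0 hS
    obtain ⟨m₀, r₀⟩ := r
    rw [node m₀ r₀ g₀ g₁ μ]
    have n1 : ∀ m c, 0 ≤ Function.update μ m₀ (yes r₀ (μ m₀)) m c := by
      intro m c
      by_cases hm : m = m₀
      · subst hm
        rw [Function.update_self]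
        exact yes_nonneg _ (h0 m) c
      · rw [Function.update_of_ne hm]
        exact h0 m c
    have n2 : ∀ m c, 0 ≤ Function.update μ m₀ (no r₀ (μ m₀)) m c := by
      intro m c
      by_cases hm : m = m₀
      · subst hm
        rw [Function.update_self]
        exact no_nonneg _ (h0 m) c
      · rw [Function.update_of_ne hm]
        exact h0 m c
    have s1 : ∀ m, St L (Function.update μ m₀ (yes r₀ (μ m₀)) m) := by
      intro m
      by_cases hm : m = m₀
      · subst hm
        rw [Function.update_self]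
        exact St_yes _ _ _
      · rw [Function.update_of_ne hm]
        exact hS m
    have s2 : ∀ m, St L (Function.update μ m₀ (no r₀ (μ m₀)) m) := by
      intro m
      by_cases hm : m = m₀
      · subst hm
        rw [Function.update_self]
        exact St_no _ (h0 m) (hS m)
      · rw [Function.update_of_ne hm]
        exact hS m
    have i1 := ih₀ _ n1 s1
    have i2 := ih₁ _ n2 s2
    have p1 := prod_upd (fun _ (ν : Bool × R → ℝ) => phi y ν) μ m₀ (yes r₀ (μ m₀))
    have p2 := prod_upd (fun _ (ν : Bool × R → ℝ) => phi y ν) μ m₀ (no r₀ (μ m₀))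
    rw [p1] at i1
    rw [p2] at i2
    have e0 : ∏ m, phi y (μ m) = phi y (μ m₀) * ∏ m ∈ univ.erase m₀, phi y (μ m) :=
      (mul_prod_erase univ _ (mem_univ m₀)).symm
    have hE : 0 ≤ ∏ m ∈ univ.erase m₀, phi y (μ m) := prod_nonneg fun m _ => phi_nonneg hy (h0 m)
    have hl := local_ineq hy hL r₀ (h0 m₀) (hS m₀)
    have hpow : 0 ≤ (1 + 1 / (L : ℝ)) ^ D := by positivity
    calc _ ≤ (1 + 1 / (L : ℝ)) ^ D * (phi y (yes r₀ (μ m₀)) * ∏ m ∈ univ.erase m₀, phi y (μ m)) +
          (1 + 1 / (L : ℝ)) ^ D * (phi y (no r₀ (μ m₀)) * ∏ m ∈ univ.erase m₀, phi y (μ m)) :=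
        add_le_add i1 i2
      _ = (1 + 1 / (L : ℝ)) ^ D * ((phi y (yes r₀ (μ m₀)) + phi y (no r₀ (μ m₀))) *
          ∏ m ∈ univ.erase m₀, phi y (μ m)) := by ring
      _ ≤ (1 + 1 / (L : ℝ)) ^ D * ((1 + 1 / (L : ℝ)) * phi y (μ m₀) *
          ∏ m ∈ univ.erase m₀, phi y (μ m)) :=
        mul_le_mul_of_nonneg_left (mul_le_mul_of_nonneg_right hl hE) hpow
      _ = _ := by rw [e0, pow_succ]; ring

end

theorem mom : T_MOM := by
  intro M R _ _ _ _ _ D L y l g hy hL hl hg
  set μ : M → Bool × R → ℝ := fun m c =>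
    if c.2 ∈ Lof l m then 1 / ((Lof l m).card : ℝ) else 0 with hμ
  have hLof : ∀ m, L ≤ (Lof l m).card := by
    intro m
    have h1 : (univ.filter fun r => l (m, r) = true) ≠ ∅ := by
      intro e
      have := hl m
      rw [e, card_empty] at this
      omega
    unfold Lof
    rw [if_neg h1]
    exact hl m
  have h0 : ∀ m c, 0 ≤ μ m c := by
    intro m c
    simp only [hμ]
    split_ifs <;> positivity
  have hcpos : ∀ m, (0 : ℝ) < (Lof l m).card := fun m => by
    have := hLof m
    have : 0 < (Lof l m).card := by omega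
    exact_mod_cast this
  have hN : ∀ m, sN (μ m) = 1 := by
    intro m
    unfold sN
    simp only [hμ]
    rw [← sum_filter, filter_mem_eq_inter, univ_inter, sum_const, nsmul_eq_mul]
    exact mul_one_div_cancel (hcpos m).ne'
  have hS : ∀ m, sS (μ m) = 1 := by
    intro m
    unfold sS
    simp only [hμ]
    rw [← sum_filter, filter_mem_eq_inter, univ_inter, sum_const, nsmul_eq_mul]
    exact mul_one_div_cancel (hcpos m).ne'
  have hphi : ∀ m, phi y (μ m) = 1 + y := by
    intro m
    unfold phi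
    rw [hN, hS, mul_one, add_comm y 1, max_self]
  have hSt : ∀ m, St L (μ m) := by
    intro m
    refine Or.inl fun r => ?_
    rw [hN]
    simp only [hμ]
    split_ifs
    · rw [mul_one_div, div_le_one (hcpos m)]
      exact_mod_cast hLof m
    · simp
  have key := claim hy hL hg μ h0 hSt
  rw [prod_congr rfl fun m _ => hphi m, prod_const, card_univ] at key
  rw [mul_comm ((1 + y) ^ _)]
  refine le_trans (le_of_eq ?_) key
  unfold V
  rw [← (Equiv.arrowProdEquivProdArrow M (fun _ => Bool) fun _ => R).symm.sum_comp,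
    Fintype.sum_prod_type]
  refine sum_congr rfl fun β _ => sum_congr rfl fun h _ => ?_
  rfl

end Pool.Agent.H70.NC.MOM
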