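import Pool.Agent.H70.NC.Targets

/-!
# BDM: bad coordinates are rare
-/

set_option autoImplicit false

namespace Pool.Agent.H70.NC.BDM

open Finset Filter Pool.Agent.H6.NB Pool.Agent.H70.OQ Pool.Agent.H70.NC

open Classical in
/-- the oracle with the values `e` at the keys and the table `y` -/
noncomputable def Oz (l : ℕ → ℕ) (key : ℕ → List Bool) (k n : ℕ) (E : Finset (ℕ × ℕ))
    (P : ∀ p : {a // a ∈ E}, Ct p.1.1 p.1.2 (l p.1.2)) (K : Finset ℕ) (e : {i // i ∈ K} → Bool)
    (y : Nq n (l n) k → Bool) (w : List Bool) : Bool :=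
  if h : ∃ i : {i // i ∈ K}, w = key i.1 then e h.choose
  else if h : ∃ v : Nq n (l n) k, w = tst k n (l n) v then y h.choose
  else sg l E P w

theorem oz_lit (l : ℕ → ℕ) (key : ℕ → List Bool) (k n : ℕ) (E : Finset (ℕ × ℕ))
    (P : ∀ p : {a // a ∈ E}, Ct p.1.1 p.1.2 (l p.1.2)) (K : Finset ℕ) (e : {i // i ∈ K} → Bool) :
    Lit (Oz l key k n E P K e) := by
  intro w
  by_cases h1 : ∃ i : {i // i ∈ K}, w = key i.1
  · refine Or.inl ⟨e h1.choose, fun y => ?_⟩
    unfold Oz
    rw [dif_pos h1]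
  · by_cases h2 : ∃ v : Nq n (l n) k, w = tst k n (l n) v
    · refine Or.inr ⟨h2.choose, fun y => ?_⟩
      unfold Oz
      rw [dif_neg h1, dif_pos h2]
    · refine Or.inl ⟨sg l E P w, fun y => ?_⟩
      unfold Oz
      rw [dif_neg h1, dif_neg h2]

theorem oz_eq (h5 : T_SGV) (l : ℕ → ℕ) (key : ℕ → List Bool) (F : ℕ → (List Bool → Bool) → Prop)
    (hl : StrictMono l) (k n T : ℕ) (E : Finset (ℕ × ℕ)) (h : (k, n) ∈ E)
    (P : ∀ p : {a // a ∈ E}, Ct p.1.1 p.1.2 (l p.1.2)) (K : Finset ℕ)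
    (hK : ∀ i, (key i).length ≤ T → i ∈ K) (c : Ct k n (l n)) (O : List Bool → Bool)
    (hO : Bld key F (sg l E (Function.update P ⟨(k, n), h⟩ c)) O) (w : List Bool)
    (hw : w.length ≤ T) :
    O w = Oz l key k n E P K (fun i => O (key i.1)) (tbq c) w := by
  have hsg := h5 l hl E
  unfold Oz
  by_cases h1 : ∃ i : {i // i ∈ K}, w = key i.1
  · rw [dif_pos h1]
    exact congrArg O h1.choose_spec
  · rw [dif_neg h1]
    have hnk : ∀ i, w ≠ key i := by
      intro i hi
      exact h1 ⟨⟨i, hK i (by rw [← hi]; exact hw)⟩, hi⟩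
    rw [hO.2 w hnk]
    by_cases h2 : ∃ v : Nq n (l n) k, w = tst k n (l n) v
    · rw [dif_pos h2]
      have e1 := hsg.1 (Function.update P ⟨(k, n), h⟩ c) ⟨(k, n), h⟩ h2.choose
      rw [Function.update_self] at e1
      rw [← e1]
      exact congrArg _ h2.choose_spec
    · rw [dif_neg h2]
      rcases hsg.2 w with ⟨p, v, hv⟩ | h3
      · have hp : p ≠ ⟨(k, n), h⟩ := by
          rintro rfl
          exact h2 ⟨v, hv⟩
        rw [hv, hsg.1, hsg.1, Function.update_of_ne hp]
      · rw [h3, h3]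

open Classical in
theorem bdm (h1 : T_BLK) (h2 : T_MAF) (h3 : T_LOM) (h4 : T_HRD) (h5 : T_SGV) (h6 : T_NSQ)
    (h7 : Pool.Agent.H6.NB.T_FIS) : T_BDM := by
  intro l key F hl hinj hk1 k n A M δ E h P O hO hn hT hδ
  -- the keys
  obtain ⟨Ws, -, hWs⟩ := h7.1 (M.time n)
  have hfin : {i | (key i).length ≤ M.time n}.Finite := by
    refine Set.Finite.subset (Set.Finite.preimage hinj.injOn (Ws.toFinset.finite_toSet)) ?_
    intro i hi
    simp only [Set.mem_preimage, List.coe_toFinset, Set.mem_ofPred_eq]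
    exact hWs _ hi
  set K : Finset ℕ := hfin.toFinset with hKdef
  have hKmem : ∀ i, (key i).length ≤ M.time n → i ∈ K := by
    intro i hi
    rw [hKdef, Set.Finite.mem_toFinset]
    exact hi
  have hKcard : nkeys key (M.time n) = K.card := by
    unfold nkeys
    rw [Set.ncard_eq_toFinset_card _ hfin]
  obtain ⟨Wa, hWa1, hWa2⟩ := h7.1 A
  -- the formulas
  have hf : ∀ (a : List Bool) (e : {i // i ∈ K} → Bool) (x : Fin n → Bool),
      ∃ f : (Nq n (l n) k → Bool) → Bool,
        OF (2 ^ (M.time n + 1)) (2 ^ (M.time n + 1)) (M.time n) k (M.time n) f ∧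
        ∀ y, (f y = true ↔ M.acc (Oz l key k n E P K e y) a (List.ofFn x)) := by
    intro a e x
    have := h2 (Nq n (l n) k) k M (Oz l key k n E P K e) a (List.ofFn x)
      (oz_lit l key k n E P K e)
    rw [List.length_ofFn] at this
    exact this
  choose f hf1 hf2 using hf
  -- the bound for one table
  have hnode : ∀ i < k, 2 ^ (l n - n) * Fintype.card (Node (Rw n (l n)) (Yq (l n)) i) ≤
      Fintype.card (Yq (l n) i) := by
    intro i _
    have e1 : Fintype.card (Node (Rw n (l n)) (Yq (l n)) i) = 2 ^ (n + (2 ^ (i + 1) - 1) * l n) :=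
      (h6 n (l n) i).2.2
    rw [e1, ← pow_add, Fintype.card_fun, Fintype.card_bool, Fintype.card_fin]
    refine Nat.pow_le_pow_right (by norm_num) ?_
    have e2 : l n - n + (n + (2 ^ (i + 1) - 1) * l n) = l n + (2 ^ (i + 1) - 1) * l n := by omega
    rw [e2]
    have e3 : 1 ≤ 2 ^ (i + 1) := Nat.one_le_two_pow
    calc l n + (2 ^ (i + 1) - 1) * l n = (1 + (2 ^ (i + 1) - 1)) * l n := by ring
      _ = 2 ^ (i + 1) * l n := by rw [Nat.add_sub_cancel' e3]
      _ ≤ 2 ^ (i + 1) * l n := le_rfl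
  have hpw : 1 ≤ pw (l n) := Nat.one_le_two_pow
  have hpw0 : (0 : ℝ) < pw (l n) := by exact_mod_cast hpw
  have hq0 : 0 < pq (l n) := by
    unfold pq
    positivity
  have hq1 : 64 * (pw (l n) : ℝ) * pq (l n) ≤ 1 := by
    unfold pq
    rw [mul_one_div_cancel (by positivity)]
  have hR : 2 ^ (l n / 2) * 2 ^ (l n / 2) ≤ Fintype.card (Fin (l n) → Bool) := by
    rw [← pow_add, Fintype.card_fun, Fintype.card_bool, Fintype.card_fin]
    exact Nat.pow_le_pow_right (by norm_num) (by omega)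
  set B : List Bool → ({i // i ∈ K} → Bool) → Finset (Ct k n (l n)) := fun a e =>
    univ.filter fun c : Hid (Rw n (l n)) (Yq (l n)) k × ((Fin n → Bool) → (Fin (l n) → Bool)) ×
      ((Fin n → Bool) → Bool) => (1 / 2 + δ) * Fintype.card (Fin n → Bool) <
      ((univ.filter fun x => f a e x (sv (glu c.2.1 c.2.2) k c.1) = c.2.2 x).card : ℝ) with hB
  set X : ℝ := (Fintype.card (Fin n → Bool) * ((2 ^ (M.time n + 1) : ℕ) *
      errD (Rw n (l n)) (Yq (l n)) (2 ^ (M.time n + 1)) (pw (l n)) (2 ^ (l n - n)) (pq (l n)) k) +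
      Fintype.card (Fin n → Bool) * (2 ^ (l n / 2) : ℕ) * (1 - pq (l n)) ^ 2 ^ (l n / 2) +
      Real.exp (Fintype.card (Fin n → Bool) * (-2 * δ ^ 2 + M.time n * pw (l n) /
        (2 ^ (l n / 2) : ℕ)))) with hX
  have hblk : ∀ a e, ((B a e).card : ℝ) ≤ X * Fintype.card (Ct k n (l n)) := by
    intro a e
    exact h1 (Fin n → Bool) (Fin (l n) → Bool) (Yq (l n)) k (2 ^ (M.time n + 1))
      (2 ^ (M.time n + 1)) (M.time n) (M.time n) (pw (l n)) (2 ^ (l n - n)) (2 ^ (l n / 2))
      (2 ^ (l n / 2)) (pq (l n)) δ hpw hT hq0 hq1 Nat.one_le_two_pow hδ Nat.one_le_two_pow hR hnode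
      (f a e) (hf1 a e)
  -- bad coordinates
  have hsub : (univ.filter fun c : Ct k n (l n) => Bad l M A n δ (O c)) ⊆
      (Wa.toFinset ×ˢ (univ : Finset ({i // i ∈ K} → Bool))).biUnion fun p => B p.1 p.2 := by
    intro c hc
    rw [mem_filter] at hc
    obtain ⟨-, a, ha, hnum⟩ := hc
    rw [mem_biUnion]
    refine ⟨(a, fun i => O c (key i.1)), ?_, ?_⟩
    · rw [mem_product]
      exact ⟨List.mem_toFinset.2 (hWa2 a ha), mem_univ _⟩
    · simp only [hB]
      rw [mem_filter]
      refine ⟨mem_univ _, ?_⟩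
      have e1 : (univ.filter fun x => f a (fun i => O c (key i.1)) x
          (sv (glu c.2.1 c.2.2) k c.1) = c.2.2 x).card = num l M (O c) a n := by
        unfold num
        congr 1
        ext x
        simp only [mem_filter, mem_univ, true_and]
        have a1 : M.acc (O c) a (List.ofFn x) ↔
            M.acc (Oz l key k n E P K (fun i => O c (key i.1)) (tbq c)) a (List.ofFn x) := by
          refine h3 k M _ _ a (List.ofFn x) fun w hw => ?_
          rw [List.length_ofFn] at hw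
          exact oz_eq h5 l key F hl k n (M.time n) E h P K hKmem c (O c) (hO c) w hw
        have a2 := h4 l key F hl hk1 E _ (O c) (hO c) ⟨(k, n), h⟩ x
        rw [Function.update_self] at a2
        rw [a1, ← hf2]
        have a3 : List.ofFn x ∈ hard l k (O c) ↔ c.2.2 x = true := a2
        rw [a3]
        have a4 : tbq c = sv (glu c.2.1 c.2.2) k c.1 := rfl
        rw [a4]
        rcases f a (fun i => O c (key i.1)) x (sv (glu c.2.1 c.2.2) k c.1) with _ | _ <;>
          rcases c.2.2 x with _ | _ <;> simp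
      rw [e1]
      have e2 : (Fintype.card (Fin n → Bool) : ℝ) = 2 ^ n := by
        rw [Fintype.card_fun, Fintype.card_bool, Fintype.card_fin]
        push_cast
        rfl
      rw [e2]
      exact hnum
  have hX0 : 0 ≤ X * Fintype.card (Ct k n (l n)) :=
    le_trans (by positivity) (hblk [] fun _ => false)
  have hcard : ((univ.filter fun c : Ct k n (l n) => Bad l M A n δ (O c)).card : ℝ) ≤
      (Wa.toFinset ×ˢ (univ : Finset ({i // i ∈ K} → Bool))).card *
        (X * Fintype.card (Ct k n (l n))) := by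
    calc ((univ.filter fun c : Ct k n (l n) => Bad l M A n δ (O c)).card : ℝ)
        ≤ (((Wa.toFinset ×ˢ (univ : Finset ({i // i ∈ K} → Bool))).biUnion
            fun p => B p.1 p.2).card : ℝ) := by exact_mod_cast card_le_card hsub
      _ ≤ ∑ p ∈ Wa.toFinset ×ˢ (univ : Finset ({i // i ∈ K} → Bool)), ((B p.1 p.2).card : ℝ) := by
          exact_mod_cast card_biUnion_le
      _ ≤ ∑ p ∈ Wa.toFinset ×ˢ (univ : Finset ({i // i ∈ K} → Bool)),
            (X * Fintype.card (Ct k n (l n))) := sum_le_sum fun p _ => hblk p.1 p.2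
      _ = _ := by rw [sum_const, nsmul_eq_mul]
  have hpairs : ((Wa.toFinset ×ˢ (univ : Finset ({i // i ∈ K} → Bool))).card : ℝ) ≤
      2 ^ (A + nkeys key (M.time n) + 1) := by
    rw [card_product, card_univ, Fintype.card_fun, Fintype.card_bool, Fintype.card_coe, hKcard]
    have e1 : Wa.toFinset.card ≤ 2 ^ (A + 1) := (List.toFinset_card_le _).trans hWa1
    have e2 : Wa.toFinset.card * 2 ^ K.card ≤ 2 ^ (A + 1) * 2 ^ K.card :=
      Nat.mul_le_mul_right _ e1
    have e3 : 2 ^ (A + 1) * 2 ^ K.card = 2 ^ (A + K.card + 1) := by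
      rw [← pow_add]
      congr 1
      ring
    rw [e3] at e2
    exact_mod_cast e2
  refine hcard.trans ((mul_le_mul_of_nonneg_right hpairs hX0).trans (le_of_eq ?_))
  rw [← mul_assoc]
  congr 1
  rw [hX]
  unfold bnd
  have e2 : (Fintype.card (Fin n → Bool) : ℝ) = 2 ^ n := by
    rw [Fintype.card_fun, Fintype.card_bool, Fintype.card_fin]
    push_cast
    rfl
  rw [e2]
  push_cast
  rfl

end Pool.Agent.H70.NC.BDM
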