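import Pool.Agent.H12.NC.OFR
import Pool.Agent.H16.NC.RDU
import Pool.Agent.H22.NC.BLK
import Pool.Agent.H31.NC.TLX
import Pool.Agent.H33.NC.BLD
import Pool.Agent.H33.NC.FEX
import Pool.Agent.H34.NC.FIN
import Pool.Agent.H49.NC.CPT
import Pool.Agent.H49.NC.ERD
import Pool.Agent.H49.NC.LOM
import Pool.Agent.H5.NC.NUM
import Pool.Agent.H5.NC.QCT
import Pool.Agent.H70.NC.BDM
import Pool.Agent.H70.NC.MOM
import Pool.Agent.H70.NC.Targets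
import Pool.Agent.H70.OQ.All
import Pool.Agent.H70.PW.All
import Pool.Agent.H81.NC.SGV
import Pool.Agent.H81.NC.TST
import Pool.Agent.H86.NC.NDQ
import Pool.Agent.H91.NC.ALF
import Pool.Agent.H91.NC.HRD
import Pool.Agent.H91.NC.MAF
import Pool.Agent.H91.NC.NSQ

/-!
# Assembly of the modules
-/

set_option autoImplicit false

namespace Pool.Agent.H70.NC

theorem pf_RDU : T_RDU :=
  Pool.Agent.H16.NC.rdu Pool.Agent.H70.PW.pf_TBE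

theorem pf_OFR : T_OFR :=
  Pool.Agent.H12.NC.ofr pf_RDU Pool.Agent.H70.OQ.pf_FMS

theorem pf_QCT : T_QCT :=
  Pool.Agent.H5.NC.qct

theorem pf_MOM : T_MOM :=
  Pool.Agent.H70.NC.MOM.mom

theorem pf_TLX : T_TLX :=
  Pool.Agent.H31.NC.tlx pf_QCT pf_MOM

theorem pf_BLK : T_BLK :=
  Pool.Agent.H22.NC.blk pf_OFR pf_TLX Pool.Agent.H70.OQ.pf_SYM Pool.Agent.H70.OQ.pf_LIV Pool.Agent.H70.OQ.pf_UWS Pool.Agent.H70.OQ.pf_LWS

theorem pf_ALF : T_ALF :=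
  Pool.Agent.H91.NC.ALF.alf Pool.Agent.H6.NB.pf_FIS

theorem pf_MAF : T_MAF :=
  Pool.Agent.H91.NC.MAF.maf pf_ALF Pool.Agent.H6.NB.pf_FIS

theorem pf_LOM : T_LOM :=
  Pool.Agent.H49.NC.lom

theorem pf_NSQ : T_NSQ :=
  Pool.Agent.H91.NC.NSQ.nsq_

theorem pf_TST : T_TST :=
  Pool.Agent.H81.NC.tst_ pf_NSQ

theorem pf_SGV : T_SGV :=
  Pool.Agent.H81.NC.sgv pf_TST

theorem pf_NDQ : T_NDQ :=
  Pool.Agent.H86.NC.ndq

theorem pf_HRD : T_HRD :=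
  Pool.Agent.H91.NC.HRD.hrd pf_SGV pf_NDQ

theorem pf_BDM : T_BDM :=
  Pool.Agent.H70.NC.BDM.bdm pf_BLK pf_MAF pf_LOM pf_HRD pf_SGV pf_NSQ Pool.Agent.H6.NB.pf_FIS

theorem pf_BLD : T_BLD :=
  Pool.Agent.H33.NC.bld

theorem pf_FEX : T_FEX :=
  Pool.Agent.H33.NC.fex pf_BDM pf_BLD

theorem pf_CPT : T_CPT :=
  Pool.Agent.H49.NC.cpt

theorem pf_ERD : T_ERD :=
  Pool.Agent.H49.NC.erd pf_NSQ

theorem pf_NUM : T_NUM :=
  Pool.Agent.H5.NC.num_ pf_ERD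

theorem pf_LOB : T_LOB :=
  Pool.Agent.H49.NC.lob pf_LOM

theorem pf_FIN : T_FIN :=
  Pool.Agent.H34.NC.fin_ pf_FEX pf_CPT pf_NUM pf_LOB

end Pool.Agent.H70.NC
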