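import Pool.Agent.H70.OQ.Stmt

/-!
# Alternating time relative to an oracle: collapse above a time bound, infinite on average below: definitions

Oracles are functions `O : List Bool → Bool`. The decision trees `DT` over an oracle are those of
`Pool.Agent.H6.NB.Stmt`, the alternating quantifiers `Alt` and the alternating statements `Nd` those of
`Pool.Agent.H70.OQ.Stmt`.
-/

set_option autoImplicit false

namespace Pool.Agent.H70.NC

open Pool.Agent.H6.NB Pool.Agent.H70.OQ

/-- A deterministic oracle machine with advice which may ask a `Σ_k` machine, as far as its dependence on
the oracle is concerned. With the advice `a` and the input `x` it asks at most `time |x|` adaptive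
questions `z`, strings of length at most `time |x|`; this is the decision tree `out a x`. The answer to the
question `z` is yes iff `∃ w₁ ∀ w₂ ∃ w₃ …` (`k` quantifiers over strings of length at most `time |x|`) the
decision tree `tree a x z [w₁, …, w_k]` accepts, which makes at most `time |x|` adaptive queries of length
at most `time |x|` to the oracle. (No uniformity is required, and `time` is an arbitrary function.) -/
structure Mach (k : ℕ) where
  time : ℕ → ℕ
  out : List Bool → List Bool → DT
  tree : List Bool → List Bool → List Bool → List (List Bool) → DT
  out_depth : ∀ a x, (out a x).depth ≤ time x.length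
  out_short : ∀ a x, (out a x).Short (time x.length)
  tree_depth : ∀ a x z ws, z.length ≤ time x.length → ws.length = k →
    (∀ w ∈ ws, w.length ≤ time x.length) → (tree a x z ws).depth ≤ time x.length
  tree_short : ∀ a x z ws, z.length ≤ time x.length → ws.length = k →
    (∀ w ∈ ws, w.length ≤ time x.length) → (tree a x z ws).Short (time x.length)

/-- The answer to the question `z` relative to the oracle `O`. -/
def Mach.ans {k : ℕ} (M : Mach k) (O : List Bool → Bool) (a x z : List Bool) : Prop :=
  Alt (fun w => w.length ≤ M.time x.length) true k fun ws => (M.tree a x z ws).eval O = true

open Classical in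
/-- The machine accepts the input `x` with the advice `a` relative to the oracle `O`. -/
def Mach.acc {k : ℕ} (M : Mach k) (O : List Bool → Bool) (a x : List Bool) : Prop :=
  (M.out a x).eval (fun z => decide (M.ans O a x z)) = true

/-- The part number `k` of the oracle: `w` is contained in it iff `0 1^k 0 w` is contained in `O`. -/
def part (k : ℕ) (O : List Bool → Bool) (w : List Bool) : Bool :=
  O (false :: (List.replicate k true ++ false :: w))

/-- The language number `k`, with `k + 1` alternating quantifiers: `x` is a member iff
`∃ v₀ ∀ v₁ ∃ v₂ … Q v_k` the part number `k` of the oracle contains (`k` odd) or does not contain (`k`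
even) the string `x v₀ v₁ ⋯ v_k`; here `|v_i| = 2 ^ i * l |x|`. -/
def hard (l : ℕ → ℕ) (k : ℕ) (O : List Bool → Bool) : Set (List Bool) :=
  {x | Nd (part k O) (k + 1) (l x.length) x}

open Classical in
/-- The number of inputs of length `n` on which the machine `M` with the advice `a` and the language number
`k` agree. -/
noncomputable def num (l : ℕ → ℕ) {k : ℕ} (M : Mach k) (O : List Bool → Bool) (a : List Bool) (n : ℕ) :
    ℕ :=
  (Finset.univ.filter fun x : Fin n → Bool => M.acc O a (List.ofFn x) ↔ List.ofFn x ∈ hard l k O).card

/-- The number of keys of length at most `t`. -/
noncomputable def nkeys (key : ℕ → List Bool) (t : ℕ) : ℕ := Set.ncard {i | (key i).length ≤ t}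

end Pool.Agent.H70.NC
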