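import Pool.Agent.H70.OQ.Targets
import Pool.Agent.H70.PW.Targets
import Pool.Agent.H70.NC.Stmt

/-!
# Collapse above, infinite on average below: definitions for the proof
-/

set_option autoImplicit false

namespace Pool.Agent.H70.NC

open Finset Pool.Agent.H6.NB Pool.Agent.H70.OQ

/-! ## Part A: formulas and tables -/

/-- The oracle family `O y` consists of constants and variables. -/
def Lit {V : Type} (O : (V → Bool) → List Bool → Bool) : Prop :=
  ∀ w, (∃ b, ∀ y, O y w = b) ∨ ∃ v, ∀ y, O y w = y v

/-- `f` is a decision tree of depth at most `T` over at most `m` formulas of depth `d` (over decision trees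
of depth at most `t`, with gates of at most `S` functions). -/
def OF {V : Type} (m S t d T : ℕ) (f : (V → Bool) → Bool) : Prop :=
  ∃ (A : Pool.Agent.H68.AC.DT (Fin m)) (g : Fin m → (V → Bool) → Bool), A.depth ≤ T ∧
    (∀ i, Fm S t d (g i)) ∧ ∀ y, f y = A.eval fun i => g i y

/-- If the rows which are not live have the value `true`, then `f` is a decision tree of depth at most `w`
over the rows. -/
def DR {X : Type} {Y : ℕ → Type} [∀ i, DecidableEq (Y i)] (w k : ℕ) (f : (Node X Y k → Bool) → Bool)
    (H : Hid X Y k) (l : X → Bool) : Prop :=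
  ∃ T : Pool.Agent.H68.AC.DT X, T.depth ≤ w ∧ ∀ b : X → Bool, (∀ x, l x = false → b x = true) →
    T.eval b = f (sv b k H)

/-- The error of `k` reductions. -/
noncomputable def errD (X : Type) (Y : ℕ → Type) [Fintype X] [∀ i, Fintype (Y i)] (S w G : ℕ) (q : ℝ) :
    ℕ → ℝ
  | 0 => 0
  | k + 1 => errT X Y S w G q k

/-! ## Part B: planted rows

`M` are the inputs, `R` the strings `v₀`; the row `(m, h m)` has the value `!β m`, all other rows have the
value `true`: this is `glu h β`. -/

/-- The number of inputs on which the answers `T m` are right. -/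
def cor {M R : Type} [Fintype M] [DecidableEq R] (T : M → (M × R → Bool) → Bool) (h : M → R)
    (β : M → Bool) : ℕ := (univ.filter fun m => T m (glu h β) = β m).card

/-- `g` is computed by a decision tree of depth `D`, with leaves labelled by elements of `B`. -/
inductive QC {X B : Type} : ℕ → ((X → Bool) → B) → Prop
  | leaf (D : ℕ) (b : B) : QC D fun _ => b
  | node (D : ℕ) (r : X) (g₀ g₁ : (X → Bool) → B) (h₀ : QC D g₀) (h₁ : QC D g₁) :
      QC (D + 1) fun y => cond (y r) (g₁ y) (g₀ y)

/-! ## Part C: strings -/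

/-- The rows: an input and a string `v₀`. -/
abbrev Rw (n l : ℕ) : Type := (Fin n → Bool) × (Fin l → Bool)

/-- The strings `v_(i+1)`. -/
abbrev Yq (l i : ℕ) : Type := Fin (2 ^ (i + 1) * l) → Bool

/-- The nodes. -/
abbrev Nq (n l i : ℕ) : Type := Node (Rw n l) (Yq l) i

/-- The string of a node. -/
def nsq (n l : ℕ) : (i : ℕ) → Nq n l i → List Bool
  | 0, x => List.ofFn (x : Rw n l).1 ++ List.ofFn (x : Rw n l).2
  | i + 1, a => nsq n l i a.1 ++ List.ofFn (a.2 : Yq l i)

/-- The values of the table `(k, n)`: hidden choices, the special rows and the answers. -/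
abbrev Ct (k n l : ℕ) : Type := Hid (Rw n l) (Yq l) k × ((Fin n → Bool) → (Fin l → Bool)) ×
  ((Fin n → Bool) → Bool)

/-- The table of a coordinate. -/
def tbq {k n l : ℕ} (c : Ct k n l) : Nq n l k → Bool := sv (glu c.2.1 c.2.2) k c.1

/-- The position of the entry `v` of the table `(k, n)`. -/
def tst (k n l : ℕ) (v : Nq n l k) : List Bool :=
  false :: (List.replicate k true ++ false :: nsq n l k v)

/-! ## Part D: the oracle -/

section

variable (l : ℕ → ℕ) (key : ℕ → List Bool) (F : ℕ → (List Bool → Bool) → Prop)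

/-- `F i` depends only on strings shorter than the key number `i`. -/
def LocF : Prop := ∀ i O O', (∀ w : List Bool, w.length < (key i).length → O w = O' w) →
  (F i O ↔ F i O')

/-- The keys contain the answers. -/
def Kc (O : List Bool → Bool) : Prop := ∀ i, (O (key i) = true ↔ F i O)

/-- `O` is the oracle built from `σ`: the keys contain the answers, the other strings are those of `σ`. -/
def Bld (σ O : List Bool → Bool) : Prop := Kc key F O ∧ ∀ w, (∀ i, w ≠ key i) → O w = σ w

open Classical in
/-- The strings outside the keys for given tables: the tables `(k, n) ∈ E`, all other strings are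
`false`. -/
noncomputable def sg (E : Finset (ℕ × ℕ)) (P : ∀ p : {a // a ∈ E}, Ct p.1.1 p.1.2 (l p.1.2)) :
    List Bool → Bool := fun w =>
  if h : ∃ a : Σ p : {a // a ∈ E}, Nq p.1.2 (l p.1.2) p.1.1, w = tst a.1.1.1 a.1.1.2 (l a.1.1.2) a.2 then
    tbq (P h.choose.1) h.choose.2
  else false

/-- The machine is right too often, for some advice of length at most `A`. -/
def Bad {k : ℕ} (M : Mach k) (A n : ℕ) (δ : ℝ) (O : List Bool → Bool) : Prop :=
  ∃ a : List Bool, a.length ≤ A ∧ (1 / 2 + δ) * 2 ^ n < num l M O a n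

end

/-! ## Part E: the error -/

/-- The parameter `w`. -/
def pw (l : ℕ) : ℕ := 2 ^ (l / 6)

/-- The parameter `q`. -/
noncomputable def pq (l : ℕ) : ℝ := 1 / (64 * (pw l : ℝ))

/-- The error for one table: `A` is the length of the advice plus the number of keys. -/
noncomputable def bnd (k n l T A : ℕ) (δ : ℝ) : ℝ :=
  2 ^ (A + 1) * (2 ^ n * (2 ^ (T + 1) * errD (Rw n l) (Yq l) (2 ^ (T + 1)) (pw l) (2 ^ (l - n)) (pq l) k) +
    2 ^ n * 2 ^ (l / 2) * (1 - pq l) ^ 2 ^ (l / 2) +
    Real.exp (2 ^ n * (-2 * δ ^ 2 + T * pw l / 2 ^ (l / 2))))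

end Pool.Agent.H70.NC
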