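import Pool.Agent.H70.NC.Targets

/-!
# ERD: the error of the reductions
-/

set_option autoImplicit false

namespace Pool.Agent.H70.NC.ERD

open Finset Filter Pool.Agent.H6.NB Pool.Agent.H70.OQ Pool.Agent.H70.NC

theorem num1 (k m : ℕ) (hm : k + 10 ≤ m) :
    2 ^ (k + 2) * (48 * (m + 1)) + 2 ^ (3 * m + 3) * (k + 3) + 2 ^ (6 * m + 5) + 4 * k + 8 * m + 40 ≤
      2 ^ (8 * m) := by
  have hpow : ∀ a b : ℕ, a ≤ b → 2 ^ a ≤ 2 ^ b := fun a b h => Nat.pow_le_pow_right (by norm_num) h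
  have hm2 : m < 2 ^ m := Nat.lt_two_pow_self
  have h1 : 2 ^ (k + 2) * (48 * (m + 1)) ≤ 2 ^ (2 * m + 6) := by
    have a1 : 2 ^ (k + 2) ≤ 2 ^ m := hpow _ _ (by omega)
    have a2 : 48 * (m + 1) ≤ 2 ^ (m + 6) := by
      rw [pow_add]
      norm_num
      omega
    calc 2 ^ (k + 2) * (48 * (m + 1)) ≤ 2 ^ m * 2 ^ (m + 6) := Nat.mul_le_mul a1 a2
      _ = 2 ^ (2 * m + 6) := by rw [← pow_add]; congr 1; ring
  have h2 : 2 ^ (3 * m + 3) * (k + 3) ≤ 2 ^ (4 * m + 3) := by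
    calc 2 ^ (3 * m + 3) * (k + 3) ≤ 2 ^ (3 * m + 3) * 2 ^ m :=
        Nat.mul_le_mul_left _ (by omega)
      _ = 2 ^ (4 * m + 3) := by rw [← pow_add]; congr 1; ring
  have h3 : 4 * k + 8 * m + 40 ≤ 2 ^ (m + 4) := by
    rw [pow_add]
    norm_num
    omega
  have b1 := hpow (2 * m + 6) (6 * m + 5) (by omega)
  have b2 := hpow (4 * m + 3) (6 * m + 5) (by omega)
  have b3 := hpow (m + 4) (6 * m + 5) (by omega)
  have b4 : 2 ^ (6 * m + 5) * 4 ≤ 2 ^ (8 * m) := by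
    calc 2 ^ (6 * m + 5) * 4 = 2 ^ (6 * m + 5 + 2) := by rw [pow_add _ (6 * m + 5) 2]; norm_num
      _ ≤ 2 ^ (8 * m) := hpow _ _ (by omega)
  omega

theorem p2 (a R W : ℕ) (h : a + R ≤ W) : (2 : ℝ) ^ a / 2 ^ W ≤ (1 / 2) ^ R := by
  rw [div_le_iff₀ (by positivity), one_div, inv_pow, ← div_eq_inv_mul, le_div_iff₀ (by positivity),
    ← pow_add]
  exact pow_le_pow_right₀ (by norm_num) h

theorem expo (N : ℕ) : Real.exp (-(N : ℝ)) ≤ (1 / 2) ^ N := by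
  have h1 : (2 : ℝ) ≤ Real.exp 1 := by
    have := Real.add_one_le_exp 1
    linarith
  have h2 : Real.exp (-(N : ℝ)) = (Real.exp 1)⁻¹ ^ N := by
    rw [← Real.exp_neg, ← Real.exp_nat_mul]
    congr 1
    ring
  rw [h2, one_div]
  exact pow_le_pow_left₀ (by positivity) (inv_anti₀ (by norm_num) h1) N

theorem num2 (W G N : ℕ) (hW : 1 ≤ W) (h : N * (64 * W) ≤ G) :
    (1 - 1 / (64 * (W : ℝ))) ^ G ≤ (1 / 2) ^ N := by
  have hW0 : (0 : ℝ) < 64 * W := by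
    have : (0 : ℝ) < W := by exact_mod_cast hW
    positivity
  have hW1 : (1 : ℝ) ≤ 64 * W := by
    have : (1 : ℝ) ≤ W := by exact_mod_cast hW
    linarith
  have hq : 1 / (64 * (W : ℝ)) ≤ 1 := by
    rw [div_le_one hW0]
    exact hW1
  have h1 : 1 - 1 / (64 * (W : ℝ)) ≤ Real.exp (-(1 / (64 * (W : ℝ)))) := by
    have := Real.add_one_le_exp (-(1 / (64 * (W : ℝ))))
    linarith
  refine (pow_le_pow_left₀ (by linarith) h1 G).trans ?_
  rw [← Real.exp_nat_mul]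
  refine le_trans (Real.exp_le_exp.2 ?_) (expo N)
  have h2 : (N : ℝ) * (64 * W) ≤ G := by exact_mod_cast h
  have h3 : (N : ℝ) ≤ G * (1 / (64 * (W : ℝ))) := by
    rw [mul_one_div, le_div_iff₀ hW0]
    exact h2
  linarith

theorem T_le {l T : ℕ} (h : T ^ 16 ≤ 2 ^ l) : T ≤ 2 ^ (3 * (l / 48) + 3) := by
  by_contra hc
  push Not at hc
  have h1 : (2 ^ (3 * (l / 48) + 3)) ^ 16 < T ^ 16 := Nat.pow_lt_pow_left hc (by norm_num)
  rw [← pow_mul] at h1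
  have h2 : (2 : ℕ) ^ l ≤ 2 ^ ((3 * (l / 48) + 3) * 16) := Nat.pow_le_pow_right (by norm_num) (by omega)
  omega

theorem erd (h : T_NSQ) : T_ERD := by
  intro k
  filter_upwards [eventually_ge_atTop (6 * (k + 12))] with n hn l T hl hT
  set m := l / 48 with hmdef
  have hm : k + 10 ≤ m := by omega
  have hpow : ∀ a b : ℕ, a ≤ b → 2 ^ a ≤ 2 ^ b := fun a b h => Nat.pow_le_pow_right (by norm_num) h
  have hT' : T ≤ 2 ^ (3 * m + 3) := T_le hT
  have hN := num1 k m hm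
  have hWl : 2 ^ (8 * m) ≤ pw l := hpow _ _ (by omega)
  have hWu : pw l ≤ 2 ^ (8 * m + 8) := hpow _ _ (by omega)
  have h8 : 2 ^ (l / 8) ≤ 2 ^ (6 * m + 5) := hpow _ _ (by omega)
  have hTk : 2 ^ (3 * m + 3) * (k + 3) = 2 ^ (3 * m + 3) * k + 2 ^ (3 * m + 3) * 3 := by ring
  have hTW : T ≤ pw l := by
    refine hT'.trans ((hpow _ _ ?_).trans hWl)
    omega
  refine ⟨hTW, ?_⟩
  rcases k with _ | k
  · unfold errD
    positivity
  · have hW1 : 1 ≤ pw l := Nat.one_le_two_pow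
    have hW0 : (0 : ℝ) < pw l := by exact_mod_cast hW1
    set R := T + 1 + 2 ^ (l / 8) + (2 * k + 1) with hR
    -- natural number inequalities
    have hTk1 : T * (k + 1) ≤ 2 ^ (3 * m + 3) * (k + 1) := Nat.mul_le_mul_right _ hT'
    have hA : (T + 2) * (k + 1) + 2 + R ≤ pw l := by
      have e1 : 2 ^ (3 * m + 3) * (k + 1 + 3) = 2 ^ (3 * m + 3) * (k + 1) + 2 ^ (3 * m + 3) * 3 := by
        ring
      have e2 : (T + 2) * (k + 1) = T * (k + 1) + 2 * (k + 1) := by ring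
      rw [e1] at hN
      rw [e2, hR]
      omega
    have hB : (8 * m + 8) + 9 + R ≤ pw l := by
      have e1 : 2 ^ (3 * m + 3) * (k + 1 + 3) = 2 ^ (3 * m + 3) * (k + 1) + 2 ^ (3 * m + 3) * 3 := by
        ring
      rw [e1] at hN
      rw [hR]
      omega
    -- the terms
    have hfive : ∀ x : ℝ, 0 ≤ x → ∀ a : ℕ, x ≤ 2 ^ a → a + 2 + R ≤ pw l →
        x * (5 / 2 ^ (pw l + 1)) ≤ (1 / 2) ^ R := by
      intro x hx a hxa ha
      have e1 : (5 : ℝ) / 2 ^ (pw l + 1) ≤ 2 ^ 2 / 2 ^ pw l := by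
        rw [pow_succ, div_le_div_iff₀ (by positivity) (by positivity)]
        have : (0 : ℝ) < 2 ^ pw l := by positivity
        nlinarith
      calc x * (5 / 2 ^ (pw l + 1)) ≤ 2 ^ a * (2 ^ 2 / 2 ^ pw l) :=
            mul_le_mul hxa e1 (by positivity) (by positivity)
        _ = 2 ^ (a + 2) / 2 ^ pw l := by rw [pow_add]; ring
        _ ≤ (1 / 2) ^ R := p2 _ _ _ ha
    have t1 : 2 / pq l * (5 / 2 ^ (pw l + 1)) ≤ (1 / 2) ^ R := by
      refine hfive _ (by unfold pq; positivity) (8 * m + 8 + 7) ?_ (by omega)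
      have e1 : 2 / pq l = 128 * (pw l : ℝ) := by
        unfold pq
        rw [div_div_eq_mul_div]
        ring
      rw [e1, pow_add]
      have e2 : (pw l : ℝ) ≤ 2 ^ (8 * m + 8) := by exact_mod_cast hWu
      have e3 : (2 : ℝ) ^ 7 = 128 := by norm_num
      rw [e3]
      nlinarith
    have t2 : ∀ i < k, (((2 ^ (T + 1) : ℕ) : ℝ) + 1) ^ (i + 1) * (5 / 2 ^ (pw l + 1)) ≤
        (1 / 2) ^ R := by
      intro i hi
      refine hfive _ (by positivity) ((T + 2) * (k + 1)) ?_ hA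
      have e1 : (((2 ^ (T + 1) : ℕ) : ℝ) + 1) ≤ 2 ^ (T + 2) := by
        push_cast
        have : (1 : ℝ) ≤ 2 ^ (T + 1) := one_le_pow₀ (by norm_num)
        rw [pow_succ _ (T + 1)]
        linarith
      calc (((2 ^ (T + 1) : ℕ) : ℝ) + 1) ^ (i + 1) ≤ (2 ^ (T + 2)) ^ (i + 1) :=
            pow_le_pow_left₀ (by positivity) e1 _
        _ = 2 ^ ((T + 2) * (i + 1)) := by rw [← pow_mul]
        _ ≤ 2 ^ ((T + 2) * (k + 1)) :=
            pow_le_pow_right₀ (by norm_num) (Nat.mul_le_mul_left _ (by omega))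
    have t3 : ∀ i < k, (Fintype.card (Node (Rw n l) (Yq l) i) : ℝ) ^ 2 *
        (1 - pq l) ^ 2 ^ (l - n) ≤ (1 / 2) ^ R := by
      intro i hi
      have e1 : Fintype.card (Node (Rw n l) (Yq l) i) = 2 ^ (n + (2 ^ (i + 1) - 1) * l) :=
        (h n l i).2.2
      rw [e1]
      have hik : 2 ^ (i + 1) ≤ 2 ^ k := hpow _ _ (by omega)
      have hexp : (n + (2 ^ (i + 1) - 1) * l) * 2 ≤ 2 ^ (k + 1 + 2) * (48 * (m + 1)) := by
        have a1 : n + (2 ^ (i + 1) - 1) * l ≤ 2 ^ (i + 1) * l := by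
          have a2 : 1 ≤ 2 ^ (i + 1) := Nat.one_le_two_pow
          calc n + (2 ^ (i + 1) - 1) * l ≤ 1 * l + (2 ^ (i + 1) - 1) * l := by omega
            _ = (1 + (2 ^ (i + 1) - 1)) * l := by ring
            _ = 2 ^ (i + 1) * l := by rw [Nat.add_sub_cancel' a2]
        have a3 : l ≤ 48 * (m + 1) := by omega
        calc (n + (2 ^ (i + 1) - 1) * l) * 2 ≤ (2 ^ (i + 1) * l) * 2 := Nat.mul_le_mul_right _ a1
          _ ≤ (2 ^ k * (48 * (m + 1))) * 2 := Nat.mul_le_mul_right _ (Nat.mul_le_mul hik a3)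
          _ = 2 ^ (k + 1) * (48 * (m + 1)) := by rw [pow_succ]; ring
          _ ≤ 2 ^ (k + 1 + 2) * (48 * (m + 1)) := Nat.mul_le_mul_right _ (hpow _ _ (by omega))
      have hbig : 2 ^ (k + 1 + 2) * (48 * (m + 1)) + R ≤ 2 ^ (8 * m) := by
        have e1 : 2 ^ (3 * m + 3) * (k + 1 + 3) =
            2 ^ (3 * m + 3) * (k + 1) + 2 ^ (3 * m + 3) * 3 := by ring
        rw [e1] at hN
        rw [hR]
        omega
      have hG : 2 ^ (8 * m) * (64 * pw l) ≤ 2 ^ (l - n) := by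
        calc 2 ^ (8 * m) * (64 * pw l) ≤ 2 ^ (8 * m) * (64 * 2 ^ (8 * m + 8)) :=
              Nat.mul_le_mul_left _ (Nat.mul_le_mul_left _ hWu)
          _ = 2 ^ (8 * m) * (2 ^ 6 * 2 ^ (8 * m + 8)) := by norm_num
          _ = 2 ^ (8 * m + (6 + (8 * m + 8))) := by rw [← pow_add, ← pow_add]
          _ ≤ 2 ^ (l - n) := hpow _ _ (by omega)
      have e2 := num2 (pw l) (2 ^ (l - n)) (2 ^ (8 * m)) hW1 hG
      have e3 : (1 - pq l) ^ 2 ^ (l - n) ≤ (1 / 2) ^ 2 ^ (8 * m) := e2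
      calc (((2 ^ (n + (2 ^ (i + 1) - 1) * l) : ℕ) : ℝ)) ^ 2 * (1 - pq l) ^ 2 ^ (l - n)
          ≤ (((2 ^ (n + (2 ^ (i + 1) - 1) * l) : ℕ) : ℝ)) ^ 2 * (1 / 2) ^ 2 ^ (8 * m) :=
            mul_le_mul_of_nonneg_left e3 (by positivity)
        _ = 2 ^ ((n + (2 ^ (i + 1) - 1) * l) * 2) / 2 ^ 2 ^ (8 * m) := by
            push_cast
            rw [← pow_mul, one_div, inv_pow, div_eq_mul_inv]
        _ ≤ (1 / 2) ^ R := p2 _ _ _ (by omega)
    have hsum : errT (Rw n l) (Yq l) (2 ^ (T + 1)) (pw l) (2 ^ (l - n)) (pq l) k ≤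
        (1 / 2) ^ R + ∑ i ∈ range k, ((1 / 2 : ℝ) ^ R + (1 / 2) ^ R) := by
      unfold errT
      refine add_le_add t1 (sum_le_sum fun i hi => ?_)
      rw [mem_range] at hi
      exact add_le_add (t2 i hi) (t3 i hi)
    refine hsum.trans ?_
    rw [sum_const, card_range, nsmul_eq_mul]
    have e4 : (1 / 2 : ℝ) ^ R + k * ((1 / 2) ^ R + (1 / 2) ^ R) = (2 * k + 1) * (1 / 2) ^ R := by
      ring
    rw [e4]
    have e5 : (2 * k + 1 : ℝ) ≤ 2 ^ (2 * k + 1) := by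
      have : 2 * k + 1 < 2 ^ (2 * k + 1) := Nat.lt_two_pow_self
      exact_mod_cast this.le
    calc (2 * k + 1 : ℝ) * (1 / 2) ^ R ≤ 2 ^ (2 * k + 1) * (1 / 2) ^ R :=
          mul_le_mul_of_nonneg_right e5 (by positivity)
      _ = 1 / 2 ^ (T + 1) / 2 ^ 2 ^ (l / 8) := by
          rw [hR, pow_add _ (T + 1 + 2 ^ (l / 8)), pow_add _ (T + 1)]
          have : (2 : ℝ) ^ (2 * k + 1) * (1 / 2) ^ (2 * k + 1) = 1 := by
            rw [← mul_pow]
            norm_num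
          rw [mul_comm ((1 / 2 : ℝ) ^ (T + 1) * (1 / 2) ^ 2 ^ (l / 8)), ← mul_assoc, this, one_mul,
            one_div_pow, one_div_pow, div_mul_div_comm, one_mul, div_div]

end Pool.Agent.H70.NC.ERD
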