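import Pool.Agent.H70.NC.Defs

/-!
# Collapse above, infinite on average below: module targets
-/

set_option autoImplicit false

namespace Pool.Agent.H70.NC

open Finset Filter Pool.Agent.H6.NB Pool.Agent.H70.OQ

/-! ## Part A: formulas and tables -/

/-- RDU: a formula over the table becomes a decision tree over the rows. -/
def T_RDU : Prop := ∀ (X : Type) (Y : ℕ → Type) [Fintype X] [DecidableEq X] [∀ i, Fintype (Y i)]
  [∀ i, DecidableEq (Y i)] [∀ i, Nonempty (Y i)] (k S t w G : ℕ) (q : ℝ), 1 ≤ w → t ≤ w → 0 < q →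
  64 * w * q ≤ 1 → 1 ≤ G → (∀ i < k, G * Fintype.card (Node X Y i) ≤ Fintype.card (Y i)) →
  ∀ f : (Node X Y k → Bool) → Bool, Fm S t k f →
  ∑ H : Hid X Y k, ∑ l : X → Bool, lw q l * ic (¬ DR w k f H l) ≤
    errD X Y S w G q k * Fintype.card (Hid X Y k)

/-- OFR: the same for a decision tree over formulas. -/
def T_OFR : Prop := ∀ (X : Type) (Y : ℕ → Type) [Fintype X] [DecidableEq X] [∀ i, Fintype (Y i)]
  [∀ i, DecidableEq (Y i)] [∀ i, Nonempty (Y i)] (k m S t T w G : ℕ) (q : ℝ), 1 ≤ w → t ≤ w → 0 < q →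
  64 * w * q ≤ 1 → 1 ≤ G → (∀ i < k, G * Fintype.card (Node X Y i) ≤ Fintype.card (Y i)) →
  ∀ f : (Node X Y k → Bool) → Bool, OF m S t k T f →
  ∑ H : Hid X Y k, ∑ l : X → Bool, lw q l * ic (¬ DR (T * w) k f H l) ≤
    m * errD X Y S w G q k * Fintype.card (Hid X Y k)

/-! ## Part B: planted rows -/

/-- QCT: the trees are asked one after the other. -/
def T_QCT : Prop := ∀ (X M : Type) [Fintype M] [DecidableEq M] (D : ℕ)
  (T : M → Pool.Agent.H68.AC.DT X), (∀ m, (T m).depth ≤ D) →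
  QC (Fintype.card M * D) fun y m => (T m).eval y

/-- MOM: the moment bound. -/
def T_MOM : Prop := ∀ (M R : Type) [Fintype M] [DecidableEq M] [Fintype R] [DecidableEq R] [Nonempty R]
  (D L : ℕ) (y : ℝ) (l : M × R → Bool) (g : (M × R → Bool) → M → Bool), 1 ≤ y → 1 ≤ L →
  (∀ m, L ≤ (univ.filter fun r => l (m, r) = true).card) → QC D g →
  ∑ β : M → Bool, ∑ h : M → R, uw (Lof l) h * y ^ (univ.filter fun m => g (glu h β) m = β m).card ≤
    (1 + y) ^ Fintype.card M * (1 + 1 / (L : ℝ)) ^ D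

/-- TLX: the tail bound. -/
def T_TLX : Prop := ∀ (M R : Type) [Fintype M] [DecidableEq M] [Fintype R] [DecidableEq R] [Nonempty R]
  (D L : ℕ) (δ : ℝ) (l : M × R → Bool) (T : M → Pool.Agent.H68.AC.DT (M × R)), 0 ≤ δ → 1 ≤ L →
  (∀ m, L ≤ (univ.filter fun r => l (m, r) = true).card) → (∀ m, (T m).depth ≤ D) →
  ∑ β : M → Bool, ∑ h : M → R, uw (Lof l) h *
      ic ((1 / 2 + δ) * Fintype.card M < cor (fun m y => (T m).eval y) h β) ≤
    2 ^ Fintype.card M * Real.exp (Fintype.card M * (-2 * δ ^ 2 + D / L))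

/-- BLK: the bound for one table. -/
def T_BLK : Prop := ∀ (M R : Type) (Y : ℕ → Type) [Fintype M] [DecidableEq M] [Fintype R]
  [DecidableEq R] [Nonempty R] [∀ i, Fintype (Y i)] [∀ i, DecidableEq (Y i)] [∀ i, Nonempty (Y i)]
  (k m S t T w G L G₀ : ℕ) (q δ : ℝ), 1 ≤ w → t ≤ w → 0 < q → 64 * w * q ≤ 1 → 1 ≤ G → 0 ≤ δ →
  1 ≤ L → G₀ * L ≤ Fintype.card R →
  (∀ i < k, G * Fintype.card (Node (M × R) Y i) ≤ Fintype.card (Y i)) →
  ∀ f : M → (Node (M × R) Y k → Bool) → Bool, (∀ x, OF m S t k T (f x)) →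
  ((univ.filter fun c : Hid (M × R) Y k × (M → R) × (M → Bool) => (1 / 2 + δ) * Fintype.card M <
      ((univ.filter fun x => f x (sv (glu c.2.1 c.2.2) k c.1) = c.2.2 x).card : ℝ)).card : ℝ) ≤
    (Fintype.card M * (m * errD (M × R) Y S w G q k) + Fintype.card M * L * (1 - q) ^ G₀ +
      Real.exp (Fintype.card M * (-2 * δ ^ 2 + T * w / L))) *
      Fintype.card (Hid (M × R) Y k × (M → R) × (M → Bool))

/-! ## Part C: strings -/

/-- NSQ: the strings of the nodes. -/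
def T_NSQ : Prop := ∀ n l i : ℕ,
  (∀ p : Nq n l i, (nsq n l i p).length = n + (2 ^ (i + 1) - 1) * l) ∧
  (∀ p p' : Nq n l i, nsq n l i p = nsq n l i p' → p = p') ∧
  Fintype.card (Nq n l i) = 2 ^ (n + (2 ^ (i + 1) - 1) * l)

/-- TST: the positions of the tables are different. -/
def T_TST : Prop := ∀ l : ℕ → ℕ, StrictMono l → ∀ a a' : Σ p : ℕ × ℕ, Nq p.2 (l p.2) p.1,
  tst a.1.1 a.1.2 (l a.1.2) a.2 = tst a'.1.1 a'.1.2 (l a'.1.2) a'.2 → a = a'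

/-- SGV: the values of the tables. -/
def T_SGV : Prop := ∀ l : ℕ → ℕ, StrictMono l → ∀ E : Finset (ℕ × ℕ),
  (∀ (P : ∀ p : {a // a ∈ E}, Ct p.1.1 p.1.2 (l p.1.2)) (p : {a // a ∈ E})
    (v : Nq p.1.2 (l p.1.2) p.1.1), sg l E P (tst p.1.1 p.1.2 (l p.1.2) v) = tbq (P p) v) ∧
  ∀ w : List Bool, (∃ (p : {a // a ∈ E}) (v : Nq p.1.2 (l p.1.2) p.1.1),
    w = tst p.1.1 p.1.2 (l p.1.2) v) ∨ ∀ P, sg l E P w = false

/-- NDQ: the members of the language. -/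
def T_NDQ : Prop := ∀ (k n l : ℕ) (O : List Bool → Bool) (c : Ct k n l),
  (∀ v : Nq n l k, O (nsq n l k v) = tbq c v) →
  ∀ x : Fin n → Bool, (Nd O (k + 1) l (List.ofFn x) ↔ c.2.2 x = true)

/-- HRD: the members of the language relative to the oracle which is built. -/
def T_HRD : Prop := ∀ (l : ℕ → ℕ) (key : ℕ → List Bool) (F : ℕ → (List Bool → Bool) → Prop),
  StrictMono l → (∀ i, ∃ w, key i = true :: w) → ∀ (E : Finset (ℕ × ℕ))
  (P : ∀ p : {a // a ∈ E}, Ct p.1.1 p.1.2 (l p.1.2)) (O : List Bool → Bool),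
  Bld key F (sg l E P) O → ∀ (p : {a // a ∈ E}) (x : Fin p.1.2 → Bool),
    (List.ofFn x ∈ hard l p.1.1 O ↔ (P p).2.2 x = true)

/-! ## Part D: machines and formulas -/

/-- ALF: an alternating statement is a formula. -/
def T_ALF : Prop := ∀ (V : Type) (T k : ℕ) (g : List (List Bool) → DT)
  (O : (V → Bool) → List Bool → Bool), Lit O →
  (∀ ws, ws.length = k → (∀ w ∈ ws, w.length ≤ T) → (g ws).depth ≤ T) →
  ∃ f : (V → Bool) → Bool, Fm (2 ^ (T + 1)) T k f ∧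
    ∀ y, (f y = true ↔ Alt (fun w => w.length ≤ T) true k fun ws => (g ws).eval (O y) = true)

/-- MAF: the value of a machine is a decision tree over formulas. -/
def T_MAF : Prop := ∀ (V : Type) (k : ℕ) (M : Mach k) (O : (V → Bool) → List Bool → Bool)
  (a x : List Bool), Lit O → ∃ f : (V → Bool) → Bool,
  OF (2 ^ (M.time x.length + 1)) (2 ^ (M.time x.length + 1)) (M.time x.length) k (M.time x.length) f ∧
    ∀ y, (f y = true ↔ M.acc (O y) a x)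

/-- LOM: the value of a machine depends only on short strings. -/
def T_LOM : Prop := ∀ (k : ℕ) (M : Mach k) (O O' : List Bool → Bool) (a x : List Bool),
  (∀ w : List Bool, w.length ≤ M.time x.length → O w = O' w) → (M.acc O a x ↔ M.acc O' a x)

/-- LOB: `Bad` depends only on short strings. -/
def T_LOB : Prop := ∀ (l : ℕ → ℕ) (k : ℕ) (M : Mach k) (A n : ℕ) (δ : ℝ) (O O' : List Bool → Bool),
  (∀ w : List Bool, w.length ≤ M.time n + k + 2 + n + 2 ^ (k + 1) * l n → O w = O' w) →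
  (Bad l M A n δ O ↔ Bad l M A n δ O')

/-! ## Part E: the oracle -/

/-- BLD: the oracle exists. -/
def T_BLD : Prop := ∀ (key : ℕ → List Bool) (F : ℕ → (List Bool → Bool) → Prop),
  Function.Injective key → LocF key F → ∀ σ, ∃ O, Bld key F σ O

open Classical in
/-- BDM: bad coordinates are rare. -/
def T_BDM : Prop := ∀ (l : ℕ → ℕ) (key : ℕ → List Bool) (F : ℕ → (List Bool → Bool) → Prop),
  StrictMono l → Function.Injective key → (∀ i, ∃ w, key i = true :: w) →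
  ∀ (k n A : ℕ) (M : Mach k) (δ : ℝ) (E : Finset (ℕ × ℕ)) (h : (k, n) ∈ E)
  (P : ∀ p : {a // a ∈ E}, Ct p.1.1 p.1.2 (l p.1.2)) (O : Ct k n (l n) → List Bool → Bool),
  (∀ c, Bld key F (sg l E (Function.update P ⟨(k, n), h⟩ c)) (O c)) → n ≤ l n →
  M.time n ≤ pw (l n) → 0 ≤ δ →
  ((univ.filter fun c : Ct k n (l n) => Bad l M A n δ (O c)).card : ℝ) ≤
    bnd k n (l n) (M.time n) (A + nkeys key (M.time n)) δ * Fintype.card (Ct k n (l n))

/-- FEX: finitely many conditions. -/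
def T_FEX : Prop := ∀ (l : ℕ → ℕ) (key : ℕ → List Bool) (F : ℕ → (List Bool → Bool) → Prop),
  StrictMono l → Function.Injective key → (∀ i, ∃ w, key i = true :: w) → LocF key F →
  ∀ (k : ℕ → ℕ) (M : ∀ j, Mach (k j)) (A : ℕ → ℕ → ℕ) (δ : ℕ → ℕ → ℝ) (J : Finset (ℕ × ℕ)),
  (∀ e ∈ J, e.1 + 3 ≤ e.2 ∧ e.2 ≤ l e.2 ∧ (M e.1).time e.2 ≤ pw (l e.2) ∧ 0 ≤ δ e.1 e.2 ∧
    bnd (k e.1) e.2 (l e.2) ((M e.1).time e.2) (A e.1 e.2 + nkeys key ((M e.1).time e.2))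
      (δ e.1 e.2) ≤ 1 / 2 ^ e.2) →
  ∃ O, Kc key F O ∧ ∀ e ∈ J, ¬ Bad l (M e.1) (A e.1 e.2) e.2 (δ e.1 e.2) O

/-- CPT: the limit. -/
def T_CPT : Prop := ∀ (key : ℕ → List Bool) (F : ℕ → (List Bool → Bool) → Prop), LocF key F →
  ∀ (C : Type) (good : C → (List Bool → Bool) → Prop),
  (∀ c, ∃ m : ℕ, ∀ O O' : List Bool → Bool, (∀ w, w.length ≤ m → O w = O' w) →
    (good c O ↔ good c O')) →
  (∀ J : Finset C, ∃ O, Kc key F O ∧ ∀ c ∈ J, good c O) → ∃ O, Kc key F O ∧ ∀ c, good c O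

/-! ## Part F: numbers and the theorem -/

/-- ERD: the error of the reductions. -/
def T_ERD : Prop := ∀ k : ℕ, ∀ᶠ n : ℕ in atTop, ∀ l T : ℕ, 8 * n ≤ l → T ^ 16 ≤ 2 ^ l →
  T ≤ pw l ∧ errD (Rw n l) (Yq l) (2 ^ (T + 1)) (pw l) (2 ^ (l - n)) (pq l) k ≤
    1 / 2 ^ (T + 1) / 2 ^ 2 ^ (l / 8)

/-- NUM: the bound for one table. -/
def T_NUM : Prop := ∀ k : ℕ, ∀ᶠ n : ℕ in atTop, ∀ (l T A : ℕ) (δ : ℝ), 8 * n ≤ l → T ^ 16 ≤ 2 ^ l →
  0 < δ → δ ≤ 1 / 2 → (A : ℝ) + n ≤ δ ^ 2 * 2 ^ n → T ≤ pw l ∧ bnd k n l T A δ ≤ 1 / 2 ^ n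

/-- FIN: the theorem. -/
def T_FIN : Prop := ∀ (l : ℕ → ℕ) (key : ℕ → List Bool) (F : ℕ → (List Bool → Bool) → Prop),
  StrictMono l → Function.Injective key → (∀ i, ∃ w, key i = true :: w) →
  (∀ i O O', (∀ w : List Bool, w.length < (key i).length → O w = O' w) → (F i O ↔ F i O')) →
  ∀ (k : ℕ → ℕ) (M : ∀ j, Mach (k j)) (A : ℕ → ℕ → ℕ) (δ : ℕ → ℕ → ℝ),
  (∀ j, ∀ᶠ n : ℕ in atTop, 8 * n ≤ l n ∧ (M j).time n ^ 16 ≤ 2 ^ l n ∧ 0 < δ j n ∧
    (nkeys key ((M j).time n) : ℝ) + A j n + n ≤ δ j n ^ 2 * 2 ^ n) →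
  ∃ O : List Bool → Bool, (∀ i, (O (key i) = true ↔ F i O)) ∧
    ∀ j, ∀ᶠ n : ℕ in atTop, ∀ a : List Bool, a.length ≤ A j n →
      (num l (M j) O a n : ℝ) ≤ (1 / 2 + δ j n) * 2 ^ n

end Pool.Agent.H70.NC
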